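import Mathlib
import Pool.Agent.Lib.MP_cfcaf3_co.Defs
import Pool.Agent.Lib.MP_cfcaf3_co.Main1

namespace Pool.Agent.Results.MP_cfcaf3_co.WreathAsymptotics

open Pool.Agent.Lib.MP_cfcaf3_co

/-- Asymptotics of the number of orbits of `S Wr S₂` (product action) on `n`-sets:
`f_n ∼ exp (2 (n r - n + e^r - 1) - r²/2) / (2 n! (r + 1))` where `r e^r = n`. -/
theorem result (Ω : Type) [Infinite Ω] [DecidableEq Ω] :
    ∃ r : ℕ → ℝ, (∀ n : ℕ, r n * Real.exp (r n) = n) ∧
      Asymptotics.IsEquivalent Filter.atTop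
        (fun n : ℕ => (orbitCount (wreath Ω) (Ω × Ω) n : ℝ))
        (fun n : ℕ => Real.exp (2 * (n * r n - n + Real.exp (r n) - 1) - r n ^ 2 / 2) /
          (2 * n.factorial * (r n + 1))) := by
  obtain ⟨r, h1, h2⟩ := exists_W 1 one_pos
  simp only [one_mul] at h1
  exact ⟨r, h1, main1 h1 h2 Ω⟩

end Pool.Agent.Results.MP_cfcaf3_co.WreathAsymptotics
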